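import Pool.Agent.Y499.GB.Field

/-!
# The Euler characteristic under integral pinching towards constant positive curvature

For an algebraic curvature tensor `R` in dimension `n = 2 m` let `κ` be the mean of its sectional
curvatures (`scal = κ n (n - 1)`), and let `D` bound the Hilbert-Schmidt distances of `R` and of its Ricci
tensor to those of constant curvature `κ`. Let `G κ` be the Gauss-Bonnet-Chern integrand for constant
curvature `κ`. Then, without any smallness assumption,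

`|GB(R) - G κ| ≤ (1/5) G |κ| + (1/(3 m)) G (10⁶ D / n)`.

So the integral (the Euler characteristic of a closed Riemannian manifold) is positive as soon as the
scalar curvature is nonnegative (no condition for even `m`) and the `L^m`-norm of `D` is at most `10⁻⁶ n` times
that of `κ`; there is no pointwise pinching assumption, and the constant is explicit in the dimension. If
all sectional curvatures are in `[κ - η, κ + η]`, then `D = (4/3) n^(3/2) η` is admissible.

The proof is the one of `Pool/Agent/W666/GB/` (a development of the starting repository, for negative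
curvature and `D ≤ 10⁻⁶ n κ`), made homogeneous in `Pool/Agent/Y499/GB/`.
-/

set_option autoImplicit false

namespace Pool.Agent.Results.MP_4a593f_gt.IntegralPinching

open Pool.Agent.W666.GB MeasureTheory

theorem neg_roundGB (m : ℕ) (κ : ℝ) : (-1) ^ m * roundGB m (-κ) = roundGB m κ := by
  rw [Y499.GB.roundGB_eq m (-κ), Y499.GB.roundGB_eq m κ, neg_pow κ m]
  have : ((-1 : ℝ) ^ m) * (-1) ^ m = 1 := by rw [← mul_pow]; norm_num
  linear_combination roundGB m 1 * κ ^ m * this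

theorem abs_flip (m : ℕ) (g κ : ℝ) : |(-1) ^ m * g - roundGB m (-κ)| = |g - roundGB m κ| := by
  have h1 : (-1 : ℝ) ^ m * g - roundGB m (-κ) = (-1) ^ m * (g - roundGB m κ) := by
    rw [← neg_roundGB m κ]
    have : ((-1 : ℝ) ^ m) * (-1) ^ m = 1 := by rw [← mul_pow]; norm_num
    linear_combination roundGB m (-κ) * this
  rw [h1, abs_mul, abs_pow, abs_neg, abs_one, one_pow, one_mul]

theorem result :
    -- (1) the estimate for an arbitrary algebraic curvature tensor
    (∀ (m : ℕ) (V : Type) [NormedAddCommGroup V] [InnerProductSpace ℝ V]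
      (e : OrthonormalBasis (Fin m × Bool) ℝ V) (R : V → V → V → V → ℝ) (κ D : ℝ),
      0 < m → AlgCurv R → 0 ≤ D → scal e R = κ * (2 * m * (2 * m - 1)) →
      devR e R (-κ) ≤ D ^ 2 → devRic e R (-κ) ≤ D ^ 2 →
        |gbc e R - roundGB m κ| ≤
          1 / 5 * roundGB m |κ| + 1 / (3 * m) * roundGB m (10 ^ 6 * D / (2 * m))) ∧
    -- (2) the estimate in terms of the sectional curvatures
    (∀ (m : ℕ) (V : Type) [NormedAddCommGroup V] [InnerProductSpace ℝ V]
      (e : OrthonormalBasis (Fin m × Bool) ℝ V) (R : V → V → V → V → ℝ) (κ η : ℝ),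
      0 < m → AlgCurv R → 0 ≤ η → scal e R = κ * (2 * m * (2 * m - 1)) →
      SecIn R (κ - η) (κ + η) →
        |gbc e R - roundGB m κ| ≤
          1 / 5 * roundGB m |κ| +
            1 / (3 * m) * roundGB m (4 / 3 * 10 ^ 6 * Real.sqrt (2 * m) * η)) ∧
    -- (3) integral pinching of the curvature tensor
    (∀ (m : ℕ) (M : Type) [MeasurableSpace M] (μ : Measure M) (K : CurvField m M) (κ D : M → ℝ),
      0 < m → Integrable K.gb μ → Integrable (fun p => κ p ^ m) μ →
      Integrable (fun p => D p ^ m) μ → (Even m ∨ ∀ p, 0 ≤ κ p) →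
      (∀ p, 0 ≤ D p ∧ scal (K.e p) (K.R p) = κ p * (2 * m * (2 * m - 1)) ∧
        devR (K.e p) (K.R p) (-(κ p)) ≤ D p ^ 2 ∧ devRic (K.e p) (K.R p) (-(κ p)) ≤ D p ^ 2) →
      ∫ p, (10 ^ 6 * D p / (2 * m)) ^ m ∂μ ≤ m * ∫ p, |κ p| ^ m ∂μ →
        7 / 15 * (roundGB m 1 * ∫ p, |κ p| ^ m ∂μ) ≤ ∫ p, K.gb p ∂μ ∧
        ∫ p, K.gb p ∂μ ≤ 23 / 15 * (roundGB m 1 * ∫ p, |κ p| ^ m ∂μ)) ∧
    -- (4) integral pinching of the sectional curvatures
    (∀ (m : ℕ) (M : Type) [MeasurableSpace M] (μ : Measure M) (K : CurvField m M) (κ η : M → ℝ),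
      0 < m → Integrable K.gb μ → Integrable (fun p => κ p ^ m) μ →
      Integrable (fun p => η p ^ m) μ → (Even m ∨ ∀ p, 0 ≤ κ p) →
      (∀ p, 0 ≤ η p ∧ scal (K.e p) (K.R p) = κ p * (2 * m * (2 * m - 1)) ∧
        SecIn (K.R p) (κ p - η p) (κ p + η p)) →
      ∫ p, (4 / 3 * 10 ^ 6 * Real.sqrt (2 * m) * η p) ^ m ∂μ ≤ m * ∫ p, |κ p| ^ m ∂μ →
        7 / 15 * (roundGB m 1 * ∫ p, |κ p| ^ m ∂μ) ≤ ∫ p, K.gb p ∂μ ∧
        ∫ p, K.gb p ∂μ ≤ 23 / 15 * (roundGB m 1 * ∫ p, |κ p| ^ m ∂μ)) := by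
  have p1 : ∀ (m : ℕ) (V : Type) [NormedAddCommGroup V] [InnerProductSpace ℝ V]
      (e : OrthonormalBasis (Fin m × Bool) ℝ V) (R : V → V → V → V → ℝ) (κ D : ℝ),
      0 < m → AlgCurv R → 0 ≤ D → scal e R = κ * (2 * m * (2 * m - 1)) →
      devR e R (-κ) ≤ D ^ 2 → devRic e R (-κ) ≤ D ^ 2 →
        |gbc e R - roundGB m κ| ≤
          1 / 5 * roundGB m |κ| + 1 / (3 * m) * roundGB m (10 ^ 6 * D / (2 * m)) := by
    intro m V _ _ e R κ D hm hR hD hs h4 h2
    have h := Y499.GB.gbc_gen hm e hR (κ := -κ) hD (by rw [hs]; ring) h4 h2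
    rwa [abs_flip, abs_neg] at h
  have p2 : ∀ (m : ℕ) (V : Type) [NormedAddCommGroup V] [InnerProductSpace ℝ V]
      (e : OrthonormalBasis (Fin m × Bool) ℝ V) (R : V → V → V → V → ℝ) (κ η : ℝ),
      0 < m → AlgCurv R → 0 ≤ η → scal e R = κ * (2 * m * (2 * m - 1)) →
      SecIn R (κ - η) (κ + η) →
        |gbc e R - roundGB m κ| ≤
          1 / 5 * roundGB m |κ| +
            1 / (3 * m) * roundGB m (4 / 3 * 10 ^ 6 * Real.sqrt (2 * m) * η) := by
    intro m V _ _ e R κ η hm hR hη hs hsec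
    have h := Y499.GB.gbc_sec hm e hR (κ := -κ) hη (by rw [hs]; ring) (by rwa [neg_neg])
    rwa [abs_flip, abs_neg] at h
  -- the integrated form
  have key : ∀ (m : ℕ) (M : Type) [MeasurableSpace M] (μ : Measure M) (g κ Y : M → ℝ),
      0 < m → Integrable g μ → Integrable (fun p => κ p ^ m) μ →
      Integrable (fun p => Y p ^ m) μ → (Even m ∨ ∀ p, 0 ≤ κ p) →
      (∀ p, |g p - roundGB m (κ p)| ≤
        1 / 5 * roundGB m |κ p| + 1 / (3 * m) * roundGB m (Y p)) →
      ∫ p, Y p ^ m ∂μ ≤ m * ∫ p, |κ p| ^ m ∂μ →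
        7 / 15 * (roundGB m 1 * ∫ p, |κ p| ^ m ∂μ) ≤ ∫ p, g p ∂μ ∧
        ∫ p, g p ∂μ ≤ 23 / 15 * (roundGB m 1 * ∫ p, |κ p| ^ m ∂μ) := by
    intro m M _ μ g κ Y hm hg hκ hY hs h hle
    have hsq : ((-1 : ℝ) ^ m) * (-1) ^ m = 1 := by rw [← mul_pow]; norm_num
    have hflip : ∀ p, |(-1) ^ m * ((-1) ^ m * g p) - roundGB m (κ p)| ≤
        1 / 5 * roundGB m |κ p| + 1 / (3 * m) * roundGB m (Y p) := by
      intro p
      have : (-1 : ℝ) ^ m * ((-1) ^ m * g p) = g p := by linear_combination g p * hsq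
      rw [this]; exact h p
    have h1 := Y499.GB.int_sign μ m hm (fun p => (-1) ^ m * g p) κ Y (hg.const_mul _) hκ hY
      hflip hs hle
    rw [integral_const_mul] at h1
    have h2 : (-1 : ℝ) ^ m * ((-1) ^ m * ∫ p, g p ∂μ) = ∫ p, g p ∂μ := by
      linear_combination (∫ p, g p ∂μ) * hsq
    rwa [h2] at h1
  refine ⟨p1, p2, ?_, ?_⟩
  · intro m M _ μ K κ D hm hg hκ hD hs h hle
    have hY : Integrable (fun p => (10 ^ 6 * D p / (2 * m)) ^ m) μ := by
      have : (fun p => (10 ^ 6 * D p / (2 * m)) ^ m) =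
          fun p => (10 ^ 6 / (2 * m : ℝ)) ^ m * D p ^ m := by
        ext p; rw [← mul_pow]; congr 1; ring
      rw [this]
      exact hD.const_mul _
    exact key m M μ K.gb κ (fun p => 10 ^ 6 * D p / (2 * m)) hm hg hκ hY hs
      (fun p => p1 m (K.V p) (K.e p) (K.R p) (κ p) (D p) hm (K.curv p) (h p).1 (h p).2.1
        (h p).2.2.1 (h p).2.2.2) hle
  · intro m M _ μ K κ η hm hg hκ hη hs h hle
    have hY : Integrable (fun p => (4 / 3 * 10 ^ 6 * Real.sqrt (2 * m) * η p) ^ m) μ := by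
      simp only [mul_pow _ (η _)]
      exact hη.const_mul _
    exact key m M μ K.gb κ (fun p => 4 / 3 * 10 ^ 6 * Real.sqrt (2 * m) * η p) hm hg hκ hY hs
      (fun p => p2 m (K.V p) (K.e p) (K.R p) (κ p) (η p) hm (K.curv p) (h p).1 (h p).2.1
        (h p).2.2) hle

end Pool.Agent.Results.MP_4a593f_gt.IntegralPinching
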