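import Pool.Agent.Y934.SS.Stm

/-!
# Positively curved metrics with Euler characteristic zero in every `C⁰` neighbourhood of explicit
nonnegatively curved metrics on `S³ × S³` (MP_4a593f_gt, Q1: disproved, stronger form)

The earlier result `SphereProductCounterexample` shows that `S³ × S³` carries one metric of positive
sectional curvature. Here: such metrics occur in every `C⁰` neighbourhood of an explicit metric `g₀`
of nonnegative curvature, the product metric deformed along the left and right diagonal actions of
`S³` (its cometric at `(x, y)` is `|L|² + |M|² + |L + M|² + |L' + M'|²` with `L' = x L x̄`,
`M' = y M ȳ`). Near `g₀` there is a whole curve of nonnegatively curved metrics `G_{μ, 0}`,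
`0 < μ < μ₀`, which have flat planes, and each of them is the initial metric of an explicit
deformation `G_{μ, ε}`, whose cometric is a polynomial in `ε` of degree two, with positive curvature
for all small `ε > 0`. For all these metrics the projection to the first factor is a Riemannian
submersion.

The algebra (positivity of the curvature polynomial along nested limits of the parameters) belongs to
the starting library (room HS, `H515HS.main`), and so does the submersion (`W482.S33`). New are the
passage from cometrics to metrics with two-sided bounds, nonnegativity and flat planes of the limit
metrics, and the comparison of the metrics; see `Pool/Agent/Y934/SS/`.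
-/

open Manifold Pool.Agent.H893R5.HO Pool.Agent.H660.HopfChi Pool.Agent.Y934.SS

/-- **Hopf's question, stronger negative answer.** (1) The deformation statement for `S³ × S³`,
where `x` and `y` are the inclusions of the two factors in `ℝ⁴`, and the first projection:
there is a metric `g₀` with cometric `QQ 0 0 0 0`, of nonnegative sectional curvature and with a flat
plane, such that for every `η > 0` there is a metric `g` of positive sectional curvature with
`(1 - η) g₀ ≤ g ≤ (1 + η) g₀`, and, moreover, there are whole curves of explicit metrics within `η` of
`g₀` which start at metrics of nonnegative curvature with flat planes and have positive curvature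
afterwards. (2) `S³ × S³` is closed, simply connected, of dimension six, admits positive curvature and
has Euler characteristic zero. (3) The assertion of Hopf is false. -/
theorem Pool.Agent.Results.MP_4a593f_gt.NearNonnegativeMetrics.result :
    ProductDeformations (𝓡 3) Sphere3 (𝓡 3) Sphere3 (fun (u : EuclideanSpace ℝ (Fin 4)) i => u i)
      (fun p => p) (fun p => p) ∧
    ProductIsCounterexample (𝓡 3) Sphere3 (𝓡 3) Sphere3 6 cellNumbers ∧ ¬ HopfAssertion :=
  ⟨deformations, productIsCounterexample, not_hopfAssertion⟩
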