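import Pool.Agent.Y195.HF.Posi

/-!
# Positivity of the Gauss–Bonnet–Chern integrand for curvature tensors which differ from a
nonnegative curvature operator by the curvature tensors of two skew forms

`SkewForm A` says that `A` is a skew-symmetric bilinear form on `V`, and `skewCurv A` is the
algebraic curvature tensor `2 A(x,y) A(z,w) + A(x,z) A(y,w) - A(x,w) A(y,z)` with sectional
curvatures `3 A(x,y)²`; for a complex structure `A`, `unitT + skewCurv A` is the curvature tensor of
complex projective space.

`TwoSkewPos δ R` says: for some skew forms `A` and `B` of arbitrary rank,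
`R = P + skewCurv A + skewCurv B`, where the curvature operator of `P` is at least `δ`.

(1) In every even dimension `2 m`, if `R` satisfies `TwoSkewPos δ`, then the Gauss–Bonnet–Chern
integrand of `R` is at least its value for constant curvature `δ`.
(2) The integral of the integrand (for a closed Riemannian manifold: the Euler characteristic) is
nonnegative, and positive if `δ` is positive somewhere.
(3) The hypothesis holds for every curvature tensor `R` such that the curvature operator of
`R - c (unitT + skewCurv J)` is at least `-ε`, with `δ = c - ε`: an explicit neighbourhood of complex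
projective space, of the same size in all dimensions.
(4) In dimension four, `TwoSkewPos δ R` holds if and only if all sectional curvatures of `R` are at
least `δ`. In every dimension it holds for the sum of a nonnegatively curved tensor which
lives on a subspace of dimension at most four and a tensor with curvature operator at least `δ`.
(5) For three skew forms (1) fails in dimension six, even if `P` has constant curvature `δ > 0`.
-/

set_option autoImplicit false

namespace Pool.Agent.Results.MP_4a593f_gt.TwoSkewForms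

open Pool.Agent.W666.GB Pool.Agent.W669.HD Pool.Agent.Y195.HF

theorem result :
    (∀ (m : ℕ) (V : Type) [NormedAddCommGroup V] [InnerProductSpace ℝ V]
      (e : OrthonormalBasis (Fin m × Bool) ℝ V) (R : V → V → V → V → ℝ) (δ : ℝ),
      AlgCurv R → 0 ≤ δ → TwoSkewPos δ R → roundGB m δ ≤ gbc e R) ∧
    (∀ (m : ℕ) (M : Type) [MeasurableSpace M] (μ : MeasureTheory.Measure M) (K : CurvField m M)
      (δ : M → ℝ), (∀ p, 0 ≤ δ p ∧ TwoSkewPos (δ p) (K.R p)) →
      0 ≤ ∫ p, K.gb p ∂μ ∧
        (MeasureTheory.Integrable K.gb μ → μ {p | 0 < δ p} ≠ 0 → 0 < ∫ p, K.gb p ∂μ)) ∧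
    (∀ (V : Type) [NormedAddCommGroup V] [InnerProductSpace ℝ V] (R : V → V → V → V → ℝ)
      (J : V → V → ℝ) (c ε : ℝ), SkewForm J → 0 ≤ c →
      OpNonneg (addT R fun x y z w => ε * unitT x y z w - c * (unitT x y z w +
        skewCurv J x y z w)) → TwoSkewPos (c - ε) R) ∧
    (∀ (V : Type) [NormedAddCommGroup V] [InnerProductSpace ℝ V]
      (_ : OrthonormalBasis (Fin 2 × Bool) ℝ V) (R : V → V → V → V → ℝ) (δ : ℝ),
      AlgCurv R → (TwoSkewPos δ R ↔ ∀ x y, δ * unitT x y x y ≤ R x y x y)) ∧
    (∀ (m : ℕ) (V : Type) [NormedAddCommGroup V] [InnerProductSpace ℝ V]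
      (_ : OrthonormalBasis (Fin m × Bool) ℝ V) (R₁ R₂ : V → V → V → V → ℝ)
      (W : Submodule ℝ V) (δ : ℝ), AlgCurv R₁ → Module.finrank ℝ W ≤ 4 → LivesOn W R₁ →
      (∀ x y, 0 ≤ R₁ x y x y) → OpNonneg (addT R₂ fun x y z w => -δ * unitT x y z w) →
        TwoSkewPos δ (addT R₁ R₂)) ∧
    (∃ (δ : ℝ) (R : E6 → E6 → E6 → E6 → ℝ), 0 < δ ∧ AlgCurv R ∧
      (∃ A : Fin 3 → E6 → E6 → ℝ, (∀ s, SkewForm (A s)) ∧
        ∀ x y z w, R x y z w = δ * unitT x y z w + ∑ s, skewCurv (A s) x y z w) ∧
      ∀ e : OrthonormalBasis (Fin 3 × Bool) ℝ E6, gbc e R < 0) :=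
  ⟨fun _ _ _ _ e _ _ hR hδ h => two_skew_pos e hR hδ h,
    fun _ _ _ μ K δ h => field_pos μ K δ h,
    fun _ _ _ _ _ _ _ hJ hc h => near_complex hJ hc h,
    fun _ _ _ e _ δ hR => four_iff_pos e hR δ,
    fun _ _ _ _ e _ _ W _ h1 hW hL hs hn => sum_twoSkewPos e W h1 hW hL hs hn,
    three_fail_pos⟩

end Pool.Agent.Results.MP_4a593f_gt.TwoSkewForms
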